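import Pool.Agent.Run7.h358.PL.Iface

set_option autoImplicit false

/-! The piece `SL2` of the project `Run7/h358/PL`. -/

open Finset Function

noncomputable section

namespace Pool.Agent.Run7.h145.PL.SL2

open Pool.Agent.Run7.h358.PL

variable {ι : Type} [DecidableEq ι] {Y : Type} [DecidableEq Y]

/-- the hypotheses of the piece -/
structure Hy (pl : ι → Y) (S : Finset ι) (f : (ι → Fin 2) → ℂ) : Prop where
  dep : ∀ a a' : ι → Fin 2, (∀ k ∈ S, a k = a' k) → f a = f a'
  bal : ∀ a, f a ≠ 0 → ∀ y, (S.filter fun k => a k = 0 ∧ pl k = y).card =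
    (S.filter fun k => a k = 1 ∧ pl k = y).card
  mov : ∀ (y : Y) (p q : Fin 2), p ≠ q → ∀ a : ι → Fin 2,
    ∑ k ∈ S.filter (fun k => a k = p ∧ pl k = y), f (Function.update a k q) = 0

/-- the contraction -/
def ct (k l : ι) (f : (ι → Fin 2) → ℂ) (a : ι → Fin 2) : ℂ :=
  f (update (update a k 0) l 1) - f (update (update a k 1) l 0)

/-- exchange of two letters -/
def sw (k l : ι) (a : ι → Fin 2) : ι → Fin 2 := update (update a k (a l)) l (a k)

lemma fin2 (p : Fin 2) : p = 0 ∨ p = 1 := by omega

lemma fin2' : ∀ p q r : Fin 2, p ≠ q → (r ≠ q ↔ r = p) := by decide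

lemma ep_ct {k l : ι} (f : (ι → Fin 2) → ℂ) (a : ι → Fin 2) :
    ep (a k) (a l) * ct k l f a = f a - f (sw k l a) := by
  have h1 : update (update a k (a k)) l (a l) = a := by simp
  rcases fin2 (a k) with hk | hk <;> rcases fin2 (a l) with hl | hl
  · have : sw k l a = a := by unfold sw; rw [hk, hl]; rw [hk, hl] at h1; exact h1
    rw [this]; simp [ep, hk, hl]
  · rw [hk, hl] at h1
    unfold ct sw ep
    rw [hk, hl, h1]; simp
  · rw [hk, hl] at h1
    unfold ct sw ep
    rw [hk, hl, h1]; simp
  · have : sw k l a = a := by unfold sw; rw [hk, hl]; rw [hk, hl] at h1; exact h1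
    rw [this]; simp [ep, hk, hl]

/-- the identity (*) -/
lemma star {pl : ι → Y} {S : Finset ι} {f : (ι → Fin 2) → ℂ} (h : Hy pl S f) {k : ι} (hk : k ∈ S)
    (a : ι → Fin 2) :
    ∑ l ∈ S.filter (fun l => l ≠ k ∧ pl l = pl k), ep (a k) (a l) * ct k l f a =
      ((((S.filter fun l => pl l = pl k).card : ℂ) + 2) / 2) * f a := by
  classical
  set q := a k with hq
  -- the complementary letter
  obtain ⟨p, hp⟩ : ∃ p : Fin 2, p ≠ q := ⟨1 - q, by rcases fin2 q with h | h <;> rw [h] <;> decide⟩
  have hpq : ∀ r : Fin 2, r ≠ q ↔ r = p := fun r => fin2' p q r hp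
  have e1 : ∑ l ∈ S.filter (fun l => l ≠ k ∧ pl l = pl k), ep (a k) (a l) * ct k l f a =
      ∑ l ∈ S.filter (fun l => l ≠ k ∧ pl l = pl k), (f a - f (sw k l a)) :=
    Finset.sum_congr rfl fun l _ => ep_ct f a
  rw [← hq] at e1
  rw [e1, Finset.sum_sub_distrib, Finset.sum_const, nsmul_eq_mul]
  -- cardinality
  have c1 : (S.filter fun l => pl l = pl k) = insert k (S.filter (fun l => l ≠ k ∧ pl l = pl k)) := by
    ext l; simp only [Finset.mem_filter, Finset.mem_insert]
    by_cases h' : l = k
    · subst h'; simp [hk]
    · simp [h']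
  have c2 : (S.filter fun l => pl l = pl k).card =
      (S.filter (fun l => l ≠ k ∧ pl l = pl k)).card + 1 := by
    rw [c1, Finset.card_insert_of_notMem (by simp)]
  -- split
  have e2 : ∑ l ∈ S.filter (fun l => l ≠ k ∧ pl l = pl k), f (sw k l a) =
      ∑ l ∈ (S.filter (fun l => l ≠ k ∧ pl l = pl k)).filter (fun l => a l = q), f (sw k l a) +
      ∑ l ∈ (S.filter (fun l => l ≠ k ∧ pl l = pl k)).filter (fun l => ¬ a l = q), f (sw k l a) :=
    (Finset.sum_filter_add_sum_filter_not _ _ _).symm
  have e3 : ∑ l ∈ (S.filter (fun l => l ≠ k ∧ pl l = pl k)).filter (fun l => a l = q), f (sw k l a) =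
      (((S.filter (fun l => l ≠ k ∧ pl l = pl k)).filter (fun l => a l = q)).card : ℂ) * f a := by
    rw [← nsmul_eq_mul, ← Finset.sum_const]
    refine Finset.sum_congr rfl fun l hl => ?_
    have := (Finset.mem_filter.1 hl).2
    congr 1
    unfold sw; rw [← hq, this, hq, update_eq_self, ← hq, ← this, update_eq_self]
  have e4 : ∑ l ∈ (S.filter (fun l => l ≠ k ∧ pl l = pl k)).filter (fun l => ¬ a l = q), f (sw k l a) =
      - f a := by
    have hm := h.mov (pl k) p q hp (update a k p)
    have c3 : S.filter (fun l => update a k p l = p ∧ pl l = pl k) =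
        insert k ((S.filter (fun l => l ≠ k ∧ pl l = pl k)).filter (fun l => ¬ a l = q)) := by
      ext l; simp only [Finset.mem_filter, Finset.mem_insert]
      by_cases h' : l = k
      · subst h'; simp [hk]
      · have := hpq (a l)
        simp only [ne_eq] at this
        rw [update_of_ne h', this]; simp only [h', false_or, ne_eq, not_false_eq_true, true_and]; tauto
    rw [c3, Finset.sum_insert (by simp), update_idem, hq, update_eq_self, ← hq] at hm
    have : ∑ l ∈ (S.filter (fun l => l ≠ k ∧ pl l = pl k)).filter (fun l => ¬ a l = q), f (sw k l a) =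
        ∑ l ∈ (S.filter (fun l => l ≠ k ∧ pl l = pl k)).filter (fun l => ¬ a l = q),
          f (update (update a k p) l q) := by
      refine Finset.sum_congr rfl fun l hl => ?_
      have := (hpq (a l)).1 (Finset.mem_filter.1 hl).2
      unfold sw; rw [this]
    rw [this]; linear_combination hm
  rw [e2, e3, e4]
  by_cases hf : f a = 0
  · rw [hf]; simp
  -- balance
  have hb := h.bal a hf (pl k)
  have c4 : (S.filter fun l => pl l = pl k).card =
      (S.filter fun l => a l = 0 ∧ pl l = pl k).card + (S.filter fun l => a l = 1 ∧ pl l = pl k).card := by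
    rw [← Finset.card_union_of_disjoint]
    · congr 1; ext l; simp only [Finset.mem_filter, Finset.mem_union]
      rcases fin2 (a l) with h' | h' <;> simp [h']
    · rw [Finset.disjoint_left]; intro l h1 h2
      have h1 := (Finset.mem_filter.1 h1).2.1
      have h2 := (Finset.mem_filter.1 h2).2.1
      rw [h1] at h2; exact absurd h2 (by decide)
  have c5 : (S.filter fun l => a l = q ∧ pl l = pl k).card =
      ((S.filter (fun l => l ≠ k ∧ pl l = pl k)).filter (fun l => a l = q)).card + 1 := by
    have : (S.filter fun l => a l = q ∧ pl l = pl k) =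
        insert k ((S.filter (fun l => l ≠ k ∧ pl l = pl k)).filter (fun l => a l = q)) := by
      ext l; simp only [Finset.mem_filter, Finset.mem_insert]
      by_cases h' : l = k
      · subst h'; simp [hk, hq]
      · simp [h']; tauto
    rw [this, Finset.card_insert_of_notMem (by simp)]
  have c6 : 2 * (S.filter fun l => a l = q ∧ pl l = pl k).card = (S.filter fun l => pl l = pl k).card := by
    rcases fin2 q with h' | h' <;> rw [h'] <;> omega
  have d2 : ((S.filter fun l => pl l = pl k).card : ℂ) =
      ((S.filter (fun l => l ≠ k ∧ pl l = pl k)).card : ℂ) + 1 := by rw [c2]; push_cast; ring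
  have d6 : ((S.filter fun l => pl l = pl k).card : ℂ) =
      2 * ((((S.filter (fun l => l ≠ k ∧ pl l = pl k)).filter (fun l => a l = q)).card : ℂ) + 1) := by
    rw [← c6, c5]; push_cast; ring
  linear_combination (-(f a)) * d2 + (f a) / 2 * d6


/-- the sum over the elements of `S` by `k`, `l` and the others -/
lemma sum3 {S : Finset ι} {k l : ι} (hk : k ∈ S) (hl : l ∈ S) (hkl : l ≠ k) {M : Type}
    [AddCommMonoid M] (g : ι → M) :
    ∑ m ∈ S, g m = g k + (g l + ∑ m ∈ (S.erase k).erase l, g m) := by
  rw [← Finset.add_sum_erase S g hk,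
    ← Finset.add_sum_erase (S.erase k) g (Finset.mem_erase.2 ⟨hkl, hl⟩)]

/-- the contraction satisfies the hypotheses -/
lemma hy_ct {pl : ι → Y} {S : Finset ι} {f : (ι → Fin 2) → ℂ} (h : Hy pl S f) {k l : ι}
    (hk : k ∈ S) (hl : l ∈ S) (hkl : l ≠ k) (hpl : pl l = pl k) :
    Hy pl ((S.erase k).erase l) (ct k l f) := by
  have mem : ∀ m, m ∈ (S.erase k).erase l → m ≠ l ∧ m ≠ k ∧ m ∈ S := by
    intro m hm
    have h1 := Finset.mem_erase.1 hm
    have h2 := Finset.mem_erase.1 h1.2
    exact ⟨h1.1, h2.1, h2.2⟩
  refine ⟨?_, ?_, ?_⟩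
  · -- dependence
    intro a a' haa
    have key : ∀ u v : Fin 2, f (update (update a k u) l v) = f (update (update a' k u) l v) := by
      intro u v
      refine h.dep _ _ fun m hm => ?_
      by_cases h1 : m = l
      · subst h1; simp
      by_cases h2 : m = k
      · subst h2; rw [update_of_ne h1, update_of_ne h1]; simp
      rw [update_of_ne h1, update_of_ne h1, update_of_ne h2, update_of_ne h2]
      exact haa m (Finset.mem_erase.2 ⟨h1, Finset.mem_erase.2 ⟨h2, hm⟩⟩)
    unfold ct; rw [key, key]
  · -- balance
    intro a ha y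
    have key : ∀ u v : Fin 2, u ≠ v → f (update (update a k u) l v) ≠ 0 →
        (((S.erase k).erase l).filter fun m => a m = 0 ∧ pl m = y).card =
          (((S.erase k).erase l).filter fun m => a m = 1 ∧ pl m = y).card := by
      intro u v huv hne
      have hb := h.bal _ hne y
      rw [Finset.card_filter, Finset.card_filter, sum3 hk hl hkl, sum3 hk hl hkl] at hb
      have e : ∀ c : Fin 2, (∑ m ∈ (S.erase k).erase l,
          if update (update a k u) l v m = c ∧ pl m = y then 1 else 0) =
          (((S.erase k).erase l).filter fun m => a m = c ∧ pl m = y).card := by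
        intro c
        rw [Finset.card_filter]
        refine Finset.sum_congr rfl fun m hm => ?_
        obtain ⟨h1, h2, _⟩ := mem m hm
        rw [update_of_ne h1, update_of_ne h2]
      rw [e 0, e 1, update_self, update_of_ne hkl.symm, update_self, hpl] at hb
      rcases fin2 u with h' | h' <;> rcases fin2 v with h'' | h'' <;> subst h' <;> subst h'' <;>
        by_cases hy : pl k = y <;> simp_all
    by_cases h1 : f (update (update a k 0) l 1) = 0
    · refine key 1 0 (by decide) fun h2 => ha ?_
      unfold ct; rw [h1, h2]; simp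
    · exact key 0 1 (by decide) h1
  · -- moves
    intro y p q hpq a
    have key : ∀ u v : Fin 2, u ≠ v →
        (if u = p ∧ pl k = y then f (update (update a k q) l v) else 0) +
        ((if v = p ∧ pl k = y then f (update (update a k u) l q) else 0) +
        ∑ m ∈ ((S.erase k).erase l).filter (fun m => a m = p ∧ pl m = y),
          f (update (update (update a m q) k u) l v)) = 0 := by
      intro u v huv
      have hm := h.mov y p q hpq (update (update a k u) l v)
      rw [Finset.sum_filter, sum3 hk hl hkl] at hm
      rw [update_self, update_of_ne hkl.symm, update_self, hpl] at hm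
      have e : (∑ m ∈ (S.erase k).erase l,
          if update (update a k u) l v m = p ∧ pl m = y then
            f (update (update (update a k u) l v) m q) else 0) =
          ∑ m ∈ ((S.erase k).erase l).filter (fun m => a m = p ∧ pl m = y),
            f (update (update (update a m q) k u) l v) := by
        rw [Finset.sum_filter]
        refine Finset.sum_congr rfl fun m hm => ?_
        obtain ⟨h1, h2, _⟩ := mem m hm
        rw [update_of_ne h1, update_of_ne h2]
        have : update (update (update a k u) l v) m q = update (update (update a m q) k u) l v := by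
          rw [update_comm h1.symm, update_comm h2.symm]
        rw [this]
      rw [e] at hm
      have e1 : update (update (update a k u) l v) k q = update (update a k q) l v := by
        rw [update_comm hkl, update_idem]
      have e2 : update (update (update a k u) l v) l q = update (update a k u) l q := by
        rw [update_idem]
      rw [e1, e2] at hm
      exact hm
    have k1 := key 0 1 (by decide)
    have k2 := key 1 0 (by decide)
    unfold ct
    rw [Finset.sum_sub_distrib]
    rcases fin2 p with h' | h' <;> rcases fin2 q with h'' | h'' <;> subst h' <;> subst h''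
    · exact absurd rfl hpq
    · by_cases hy : pl k = y
      · simp [hy] at k1 k2; linear_combination k1 - k2
      · simp [hy] at k1 k2; rw [k1, k2]; simp
    · by_cases hy : pl k = y
      · simp [hy] at k1 k2; linear_combination k1 - k2
      · simp [hy] at k1 k2; rw [k1, k2]; simp
    · exact absurd rfl hpq

/-- the span -/
def Sp (pl : ι → Y) (S : Finset ι) : Submodule ℂ ((ι → Fin 2) → ℂ) :=
  Submodule.span ℂ {G : (ι → Fin 2) → ℂ |
    ∃ l : List (ι × ι), IsMat S l ∧ (∀ p ∈ l, pl p.1 = pl p.2) ∧ G = prL l}

/-- multiplication by the determinant of the letters at `k`, `l` -/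
def mulE (k l : ι) : ((ι → Fin 2) → ℂ) →ₗ[ℂ] ((ι → Fin 2) → ℂ) where
  toFun g := fun a => ep (a k) (a l) * g a
  map_add' g g' := by ext a; simp [mul_add]
  map_smul' c g := by ext a; simp; ring

lemma mulE_mem {pl : ι → Y} {S : Finset ι} {k l : ι}
    (hk : k ∈ S) (hl : l ∈ S) (hkl : l ≠ k) (hpl : pl l = pl k) {g : (ι → Fin 2) → ℂ}
    (hg : g ∈ Sp pl ((S.erase k).erase l)) : mulE k l g ∈ Sp pl S := by
  have : Sp pl ((S.erase k).erase l) ≤ (Sp pl S).comap (mulE k l) := by
    refine Submodule.span_le.2 ?_
    rintro G ⟨L, ⟨hn, hm⟩, hp, rfl⟩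
    refine Submodule.subset_span ⟨(k, l) :: L, ⟨?_, ?_⟩, ?_, ?_⟩
    · have hs : supp ((k, l) :: L) = k :: l :: supp L := rfl
      rw [hs, List.nodup_cons, List.nodup_cons]
      refine ⟨?_, ?_, hn⟩
      · rw [List.mem_cons, not_or]
        refine ⟨hkl.symm, fun h => ?_⟩
        have := (hm k).1 h
        simp at this
      · intro h
        have := (hm l).1 h
        simp at this
    · intro m
      have hs : supp ((k, l) :: L) = k :: l :: supp L := rfl
      rw [hs, List.mem_cons, List.mem_cons, hm m]
      simp only [Finset.mem_erase]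
      constructor
      · rintro (rfl | rfl | h)
        · exact hk
        · exact hl
        · exact h.2.2
      · intro h
        by_cases h1 : m = k
        · exact Or.inl h1
        by_cases h2 : m = l
        · exact Or.inr (Or.inl h2)
        exact Or.inr (Or.inr ⟨h2, h1, h⟩)
    · intro p hp'
      rcases List.mem_cons.1 hp' with rfl | h
      · exact hpl.symm
      · exact hp p h
    · ext a; rfl
  exact this hg

lemma mem_of_hy (pl : ι → Y) : ∀ (n : ℕ) (S : Finset ι) (f : (ι → Fin 2) → ℂ), S.card = n →
    Hy pl S f → f ∈ Sp pl S := by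
  intro n
  induction n using Nat.strong_induction_on with
  | _ n ih =>
    intro S f hn h
    rcases S.eq_empty_or_nonempty with rfl | ⟨k, hk⟩
    · have : f = (f fun _ => 0) • prL ([] : List (ι × ι)) := by
        ext a
        simp only [Pi.smul_apply, prL, List.map_nil, List.prod_nil, smul_eq_mul, mul_one]
        exact h.dep _ _ (by simp)
      rw [this]
      refine Submodule.smul_mem _ _ (Submodule.subset_span ⟨[], ⟨?_, ?_⟩, ?_, rfl⟩)
      · exact List.nodup_nil
      · intro m; simp [supp]
      · intro p hp; simp at hp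
    · set R := S.filter (fun l => l ≠ k ∧ pl l = pl k) with hR
      set s : ℂ := (((S.filter fun l => pl l = pl k).card : ℂ) + 2) / 2 with hs
      have hs0 : s ≠ 0 := by
        rw [hs]
        have : (((S.filter fun l => pl l = pl k).card : ℂ) + 2) ≠ 0 := by
          have := Nat.cast_ne_zero (R := ℂ).2 (Nat.succ_ne_zero ((S.filter fun l => pl l = pl k).card + 1))
          push_cast at this
          intro h0; apply this; linear_combination h0
        exact div_ne_zero this (by norm_num)
      have e : f = s⁻¹ • ∑ l ∈ R, mulE k l (ct k l f) := by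
        ext a
        have := star h hk a
        rw [Pi.smul_apply, Finset.sum_apply, smul_eq_mul]
        have e2 : ∑ l ∈ R, (mulE k l (ct k l f)) a = s * f a := this
        rw [e2]; field_simp
      rw [e]
      refine Submodule.smul_mem _ _ (Submodule.sum_mem _ fun l hl => ?_)
      obtain ⟨hlS, hlk, hpl⟩ := Finset.mem_filter.1 hl
      refine mulE_mem hk hlS hlk hpl ?_
      refine ih ((S.erase k).erase l).card ?_ _ _ rfl (hy_ct h hk hlS hlk hpl)
      rw [← hn]
      exact lt_of_le_of_lt (Finset.card_le_card (Finset.erase_subset _ _))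
        (Finset.card_erase_lt_of_mem hk)

theorem main : S_SL2 := by
  intro ι _ _ Y _ pl S f h1 h2 h3
  exact mem_of_hy pl S.card S f rfl ⟨h1, h2, h3⟩


end Pool.Agent.Run7.h145.PL.SL2
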